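import Pool.Agent.Run7.h851.T.Iface
import Pool.Agent.H574R2.D3.G3p
import Pool.Agent.H337R2.LZ.G2

/-!
# G2: entries of the pole part (port of `Dim7/G2.lean`, order 64, no zeros)
-/

open Polynomial Pool.Agent.H337R2 Pool.Agent.Run7.h851.T

namespace Pool.Agent.Run7.h232.T

set_option maxRecDepth 20000

noncomputable section

namespace G2

/-- truncated norm -/
def nrm (f : PowerSeries ℚ) : ℚ := ∑ j ∈ Finset.range 65, |PowerSeries.coeff j f| / 2 ^ j

lemma nrm_nonneg (f : PowerSeries ℚ) : 0 ≤ nrm f := Finset.sum_nonneg fun j _ => by positivity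

lemma nrm_neg (f : PowerSeries ℚ) : nrm (-f) = nrm f := by
  unfold nrm
  exact Finset.sum_congr rfl fun j _ => by rw [map_neg, abs_neg]

lemma nrm_add (f g : PowerSeries ℚ) : nrm (f + g) ≤ nrm f + nrm g := by
  unfold nrm
  rw [← Finset.sum_add_distrib]
  apply Finset.sum_le_sum
  intro j _
  rw [map_add, ← add_div]
  gcongr
  exact abs_add_le _ _

lemma nrm_sub (f g : PowerSeries ℚ) : nrm (f - g) ≤ nrm f + nrm g := by
  rw [sub_eq_add_neg, ← nrm_neg g]
  exact nrm_add _ _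

lemma nrm_sum {ι : Type*} (s : Finset ι) (f : ι → PowerSeries ℚ) :
    nrm (∑ i ∈ s, f i) ≤ ∑ i ∈ s, nrm (f i) := by
  classical
  induction s using Finset.induction_on with
  | empty => simp [nrm]
  | insert a s ha ih =>
    rw [Finset.sum_insert ha, Finset.sum_insert ha]
    exact (nrm_add _ _).trans (by linarith)

lemma nrm_mul (f g : PowerSeries ℚ) : nrm (f * g) ≤ nrm f * nrm g := by
  unfold nrm
  have h1 : ∀ j ∈ Finset.range 65, |PowerSeries.coeff j (f * g)| / 2 ^ j ≤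
      ∑ p ∈ Finset.HasAntidiagonal.antidiagonal j, (|PowerSeries.coeff p.1 f| / 2 ^ p.1) * (|PowerSeries.coeff p.2 g| / 2 ^ p.2) := by
    intro j _
    rw [PowerSeries.coeff_mul, div_le_iff₀ (by positivity), Finset.sum_mul]
    refine (Finset.abs_sum_le_sum_abs _ _).trans (Finset.sum_le_sum fun p hp => ?_)
    rw [Finset.HasAntidiagonal.mem_antidiagonal] at hp
    rw [← hp, abs_mul, pow_add]
    apply le_of_eq
    field_simp
  refine (Finset.sum_le_sum h1).trans ?_
  rw [Finset.sum_mul_sum, ← Finset.sum_product']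
  have h2 : ∀ j ∈ Finset.range 65, Finset.HasAntidiagonal.antidiagonal j =
      (((Finset.range 65 ×ˢ Finset.range 65).filter fun p => p.1 + p.2 ∈ Finset.range 65).filter
        fun p => p.1 + p.2 = j) := by
    intro j hj
    ext ⟨a, b⟩
    rw [Finset.mem_range] at hj
    simp only [Finset.HasAntidiagonal.mem_antidiagonal, Finset.mem_filter, Finset.mem_product, Finset.mem_range]
    omega
  rw [Finset.sum_congr rfl fun j hj => by rw [h2 j hj]]
  rw [Finset.sum_fiberwise_of_maps_to (t := Finset.range 65) (g := fun p : ℕ × ℕ => p.1 + p.2)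
    (fun p hp => (Finset.mem_filter.1 hp).2)]
  refine Finset.sum_le_sum_of_subset_of_nonneg (Finset.filter_subset _ _) ?_
  intro p _ _
  positivity

lemma nrm_C (a : ℚ) : nrm (PowerSeries.C a) = |a| := by
  unfold nrm
  rw [Finset.sum_eq_single 0]
  · simp
  · intro j _ hj
    rw [PowerSeries.coeff_C, if_neg hj]
    simp
  · intro h
    exact absurd (Finset.mem_range.2 (by norm_num)) h

lemma nrm_one : nrm 1 = 1 := by
  have h := nrm_C 1
  rw [map_one, abs_one] at h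
  exact h

lemma nrm_C_mul (a : ℚ) (f : PowerSeries ℚ) : nrm (PowerSeries.C a * f) = |a| * nrm f := by
  unfold nrm
  rw [Finset.mul_sum]
  refine Finset.sum_congr rfl fun j _ => ?_
  rw [PowerSeries.coeff_C_mul, abs_mul, mul_div_assoc]

lemma nrm_pow (f : PowerSeries ℚ) (m : ℕ) : nrm (f ^ m) ≤ nrm f ^ m := by
  induction m with
  | zero => rw [pow_zero, pow_zero, nrm_one]
  | succ m ih =>
    rw [pow_succ, pow_succ]
    exact (nrm_mul _ _).trans (mul_le_mul_of_nonneg_right ih (nrm_nonneg _))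

lemma nrm_prod {ι : Type*} (s : Finset ι) (f : ι → PowerSeries ℚ) :
    nrm (∏ i ∈ s, f i) ≤ ∏ i ∈ s, nrm (f i) := by
  classical
  induction s using Finset.induction_on with
  | empty => rw [Finset.prod_empty, Finset.prod_empty, nrm_one]
  | insert a s ha ih =>
    rw [Finset.prod_insert ha, Finset.prod_insert ha]
    exact (nrm_mul _ _).trans (mul_le_mul_of_nonneg_left ih (nrm_nonneg _))

lemma nrm_X : nrm PowerSeries.X = 1 / 2 := by
  unfold nrm
  rw [Finset.sum_eq_single 1]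
  · simp
  · intro j _ hj
    rw [PowerSeries.coeff_X, if_neg hj]
    simp
  · intro h
    exact absurd (Finset.mem_range.2 (by norm_num)) h

lemma nrm_X_add_C (a : ℚ) : nrm (PowerSeries.X + PowerSeries.C a) ≤ |a| + 1 / 2 := by
  refine (nrm_add _ _).trans ?_
  rw [nrm_X, nrm_C]
  linarith

lemma nrm_TS_lin (c a : ℚ) : nrm (TS c (X + C a)) ≤ |c + a| + 1 / 2 := by
  rw [TS_lin]
  exact nrm_X_add_C _

lemma nrm_iv {a : ℚ} (ha : 1 / 2 < |a|) : nrm (iv a) ≤ 1 / (|a| - 1 / 2) := by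
  have h0 : 0 < |a| := by linarith
  unfold nrm
  have h1 : ∀ j ∈ Finset.range 65, |PowerSeries.coeff j (iv a)| / 2 ^ j = 1 / |a| * (1 / (2 * |a|)) ^ j := by
    intro j _
    unfold iv
    rw [PowerSeries.coeff_mk, abs_div, abs_pow, abs_pow, abs_neg, abs_one, one_pow, div_pow, one_pow, mul_pow,
      pow_succ]
    field_simp
  rw [Finset.sum_congr rfl h1, ← Finset.mul_sum]
  have h2 : 1 / (2 * |a|) < 1 := by
    rw [div_lt_one (by positivity)]
    linarith
  have h3 := geom_sum_eq (ne_of_lt h2) 65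
  rw [h3]
  have h4 : (1 / |a| : ℚ) * (((1 / (2 * |a|)) ^ 65 - 1) / (1 / (2 * |a|) - 1)) =
      (1 - (1 / (2 * |a|)) ^ 65) * (1 / (|a| - 1 / 2)) := by
    have h5 : 1 / (2 * |a|) - 1 ≠ 0 := by linarith
    have h6 : |a| - 1 / 2 ≠ 0 := by linarith
    have h7 : (1 / |a| : ℚ) / (1 / (2 * |a|) - 1) = -(1 / (|a| - 1 / 2)) := by
      have h8 : 2 * |a| - 1 ≠ 0 := by
        intro h
        apply h6
        linarith
      have h9 : (1 : ℚ) / (2 * |a|) - 1 = -((2 * |a| - 1) / (2 * |a|)) := by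
        field_simp
        ring
      rw [h9, show |a| - 1 / 2 = (2 * |a| - 1) / 2 by ring, div_neg, neg_inj]
      generalize 2 * |a| - 1 = u at *
      field_simp
    calc (1 / |a| : ℚ) * (((1 / (2 * |a|)) ^ 65 - 1) / (1 / (2 * |a|) - 1))
        = ((1 / (2 * |a|)) ^ 65 - 1) * ((1 / |a| : ℚ) / (1 / (2 * |a|) - 1)) := by ring
      _ = (1 - (1 / (2 * |a|)) ^ 65) * (1 / (|a| - 1 / 2)) := by rw [h7]; ring
  rw [h4]
  have h8 : (0 : ℚ) ≤ 1 / (|a| - 1 / 2) := by
    apply one_div_nonneg.2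
    linarith
  have h9 : (0 : ℚ) ≤ (1 / (2 * |a|)) ^ 65 := by positivity
  nlinarith

lemma coeff_le_nrm (f : PowerSeries ℚ) {j : ℕ} (hj : j ≤ 64) :
    |PowerSeries.coeff j f| ≤ 2 ^ 64 * nrm f := by
  have h1 : |PowerSeries.coeff j f| / 2 ^ j ≤ nrm f :=
    Finset.single_le_sum (f := fun j => |PowerSeries.coeff j f| / 2 ^ j) (fun i _ => by positivity)
      (Finset.mem_range.2 (by omega))
  rw [div_le_iff₀ (by positivity)] at h1
  refine h1.trans ?_
  rw [mul_comm]
  exact mul_le_mul_of_nonneg_right (pow_le_pow_right₀ (by norm_num) hj) (nrm_nonneg _)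

/-- the truncated norm, as a real number -/
def G2r (f : PowerSeries ℚ) : ℝ := ((nrm f : ℚ) : ℝ)

lemma G2r_nonneg (f : PowerSeries ℚ) : 0 ≤ G2r f := by
  unfold G2r
  exact_mod_cast nrm_nonneg f

lemma G2r_mul (f g : PowerSeries ℚ) : G2r (f * g) ≤ G2r f * G2r g := by
  unfold G2r
  exact_mod_cast nrm_mul f g

lemma G2r_one : G2r 1 = 1 := by
  unfold G2r
  rw [nrm_one]
  norm_num

lemma G2r_mul_exp {f g : PowerSeries ℚ} {a b : ℝ} (hf : G2r f ≤ Real.exp a) (hg : G2r g ≤ Real.exp b) :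
    G2r (f * g) ≤ Real.exp (a + b) := by
  rw [Real.exp_add]
  exact (G2r_mul f g).trans (mul_le_mul hf hg (G2r_nonneg _) (Real.exp_pos _).le)

lemma G2r_sq_exp {f : PowerSeries ℚ} {a : ℝ} (hf : G2r f ≤ Real.exp a) :
    G2r (f ^ 2) ≤ Real.exp (2 * a) := by
  rw [pow_two, two_mul]
  exact G2r_mul_exp hf hf

lemma G2r_prod_exp {ι : Type*} (s : Finset ι) (f : ι → PowerSeries ℚ) (g : ι → ℝ)
    (h : ∀ i ∈ s, G2r (f i) ≤ Real.exp (g i)) : G2r (∏ i ∈ s, f i) ≤ Real.exp (∑ i ∈ s, g i) := by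
  classical
  induction s using Finset.induction_on with
  | empty => rw [Finset.prod_empty, Finset.sum_empty, G2r_one]; simp
  | insert a s ha ih =>
    rw [Finset.prod_insert ha, Finset.sum_insert ha]
    exact G2r_mul_exp (h a (Finset.mem_insert_self a s))
      (ih fun i hi => h i (Finset.mem_insert_of_mem hi))

lemma G2r_lin (a : ℚ) : G2r (PowerSeries.X + PowerSeries.C a) ≤ |(a : ℝ)| + 1 := by
  have h := nrm_X_add_C a
  have h2 : ((nrm (PowerSeries.X + PowerSeries.C a) : ℚ) : ℝ) ≤ ((|a| + 1 / 2 : ℚ) : ℝ) := by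
    exact_mod_cast h
  unfold G2r
  push_cast at h2
  linarith

/-- from a rational bound to an exponential bound -/
lemma G2r_of_le {f : PowerSeries ℚ} {q : ℚ} (h : nrm f ≤ q) (hq : 0 < q) {a : ℝ}
    (ha : Real.log (q : ℝ) ≤ a) : G2r f ≤ Real.exp a := by
  have h1 : G2r f ≤ (q : ℝ) := by
    unfold G2r
    exact_mod_cast h
  have hq' : (0 : ℝ) < (q : ℝ) := by exact_mod_cast hq
  exact h1.trans ((Real.log_le_iff_le_exp hq').1 ha)

/-! ### the nodes -/

lemma G2_TSnode (n k : ℕ) (a : ℚ) :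
    TS (-(k : ℚ)) ((X - C (a ^ 2)).comp (xM n)) =
      (PowerSeries.X + PowerSeries.C ((((2 * n : ℕ) : ℚ) - k) - a)) *
        (PowerSeries.X + PowerSeries.C ((((2 * n : ℕ) : ℚ) - k) + a)) := by
  unfold xM
  rw [Polynomial.sub_comp, Polynomial.X_comp, Polynomial.C_comp, map_sub, map_pow, TS_lin, TS_C]
  have h1 : (-(k : ℚ) + ((2 * n : ℕ) : ℚ)) = (((2 * n : ℕ) : ℚ) - k) := by ring
  rw [h1]
  simp only [map_sub, map_add, map_pow]
  ring

/-- one linear factor in terms of the integer `e = 1000 (u ∓ z)` -/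
lemma G2_loge (e : ℤ) : Real.log (|(e : ℝ) / 1000| + 1) =
    Real.log ((e : ℝ) / 1000) + Real.log (1 + 1000 / |(e : ℝ)|) := by
  generalize (e : ℝ) = u
  rcases eq_or_ne u 0 with rfl | hu
  · simp
  · have hu' : 0 < |u| := abs_pos.2 hu
    rw [← Real.log_abs (u / 1000), ← Real.log_mul (by positivity) (by positivity)]
    congr 1
    rw [abs_div, abs_of_pos (by norm_num : (0 : ℝ) < 1000)]
    field_simp

lemma G2_log1k (x : ℝ) (hx : 0 ≤ x) : Real.log (1 + 1000 / x) ≤ 100 * Real.log (1 + 10 / x) := by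
  have h1 : (0 : ℝ) ≤ 10 / x := by positivity
  have h2 : 100 * Real.log (1 + 10 / x) = Real.log ((1 + 10 / x) ^ 100) := by
    rw [Real.log_pow]; norm_num
  rw [h2]
  apply Real.log_le_log
  · have : (0 : ℝ) ≤ 1000 / x := by positivity
    linarith
  · have e : (1000 : ℝ) / x = 100 * (10 / x) := by ring
    rw [e]
    have h3 := one_add_mul_le_pow (a := 10 / x) (by linarith) 100
    push_cast at h3
    linarith

lemma G2_sum1k {ι : Type*} (s : Finset ι) (u : ι → ℤ) (hinj : Set.InjOn u s) (M : ℕ) (hM : 1 ≤ M)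
    (hu : ∀ l ∈ s, |u l| ≤ M) :
    ∑ l ∈ s, Real.log (1 + 1000 / |(u l : ℝ)|) ≤ 2000 * (1 + Real.log M) := by
  have h := Pool.Agent.LZ.G2_sum s u hinj M hM hu
  have h2 : ∑ l ∈ s, Real.log (1 + 1000 / |(u l : ℝ)|) ≤ ∑ l ∈ s, 100 * Real.log (1 + 10 / |(u l : ℝ)|) :=
    Finset.sum_le_sum fun l _ => G2_log1k _ (abs_nonneg _)
  rw [← Finset.mul_sum] at h2
  linarith

/-- the nodes -/
lemma G2_nodes {n : ℕ} (hn : 40 ≤ n) (s : Finset ℕ) (hinj : Set.InjOn (nd n) s)
    (hbd : ∀ i ∈ s, |nd n i| ≤ 33180 * n) {k : ℕ} (hk : k ∈ sM n) (i : ℕ) :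
    G2r (TS (-(k : ℚ)) ((lag s (zq n) i).comp (xM n))) ≤
      Real.exp (Lp n s (1000 * ((2 * n : ℤ) - k)) + 4000 * (1 + Real.log ((100000 * n : ℕ) : ℝ))) := by
  classical
  obtain ⟨hk1, hk2⟩ := Finset.mem_Icc.1 hk
  unfold lag Pool.Agent.LZ.lag
  rw [Polynomial.prod_comp, map_prod]
  have h0 : ∀ l ∈ s.erase i, G2r (TS (-(k : ℚ)) ((X - C (zq n l)).comp (xM n))) ≤
      Real.exp (Real.log (|((1000 * ((2 * n : ℤ) - k) - nd n l : ℤ) : ℝ) / 1000| + 1) +
        Real.log (|((1000 * ((2 * n : ℤ) - k) + nd n l : ℤ) : ℝ) / 1000| + 1)) := by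
    intro l _
    unfold zq
    rw [G2_TSnode]
    apply G2r_mul_exp
    · rw [Real.exp_log (by positivity)]
      refine (G2r_lin _).trans (le_of_eq ?_)
      congr 2
      push_cast
      ring
    · rw [Real.exp_log (by positivity)]
      refine (G2r_lin _).trans (le_of_eq ?_)
      congr 2
      push_cast
      ring
  refine (G2r_prod_exp _ _ _ h0).trans (Real.exp_le_exp.2 ?_)
  have h1 : ∑ l ∈ s.erase i, (Real.log (|((1000 * ((2 * n : ℤ) - k) - nd n l : ℤ) : ℝ) / 1000| + 1) +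
        Real.log (|((1000 * ((2 * n : ℤ) - k) + nd n l : ℤ) : ℝ) / 1000| + 1)) ≤
      ∑ l ∈ s, (Real.log (|((1000 * ((2 * n : ℤ) - k) - nd n l : ℤ) : ℝ) / 1000| + 1) +
        Real.log (|((1000 * ((2 * n : ℤ) - k) + nd n l : ℤ) : ℝ) / 1000| + 1)) := by
    apply Finset.sum_le_sum_of_subset_of_nonneg (Finset.erase_subset _ _)
    intro l _ _
    apply add_nonneg
    · exact Real.log_nonneg (by
        linarith [abs_nonneg (((1000 * ((2 * n : ℤ) - k) - nd n l : ℤ) : ℝ) / 1000)])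
    · exact Real.log_nonneg (by
        linarith [abs_nonneg (((1000 * ((2 * n : ℤ) - k) + nd n l : ℤ) : ℝ) / 1000)])
  refine h1.trans ?_
  simp only [G2_loge]
  have hM : 1 ≤ 100000 * n := by omega
  have hk5 : (k : ℤ) ≤ 4 * n := by exact_mod_cast hk2
  have h3 := G2_sum1k s (fun l => 1000 * ((2 * n : ℤ) - k) - nd n l) (by
    intro a ha b hb hab
    apply hinj ha hb
    simp only at hab
    omega) (100000 * n) hM (by
    intro l hl
    have h4 := hbd l hl
    rw [abs_le] at h4 ⊢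
    push_cast
    constructor <;> omega)
  have h4 := G2_sum1k s (fun l => 1000 * ((2 * n : ℤ) - k) + nd n l) (by
    intro a ha b hb hab
    apply hinj ha hb
    simp only at hab
    omega) (100000 * n) hM (by
    intro l hl
    have h4 := hbd l hl
    rw [abs_le] at h4 ⊢
    push_cast
    constructor <;> omega)
  unfold Lp
  simp only [Finset.sum_add_distrib] at *
  linarith

/-! ### the poles, the constant -/

lemma lf {m : ℕ} {M : ℝ} (hm : (m : ℝ) + 1 ≤ M) :
    Real.log (m.factorial : ℝ) ≤ Psi m + 1 + Real.log M := by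
  have h1 := Pool.Agent.LZ.G2_lf_up m
  have h2 : Real.log ((m : ℝ) + 1) ≤ Real.log M := Real.log_le_log (by positivity) hm
  linarith

lemma G2_V0 {n k : ℕ} (hk : k ∈ sM n) : nrm (VV ((sM n).erase k) mM (-(k : ℚ))) ≤
    ((2 * (4 * n + 1)) ^ 2 * (1 / ((k.factorial : ℚ) * (4 * n - k).factorial))) ^ 64 := by
  obtain ⟨hk1, hk2⟩ := Finset.mem_Icc.1 hk
  unfold VV
  refine (nrm_prod _ _).trans ?_
  have habs : ∀ m ∈ (sM n).erase k, (1 : ℚ) ≤ |-(k : ℚ) + m| := by
    intro m hm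
    have hne : m ≠ k := Finset.ne_of_mem_erase hm
    have h2 : (1 : ℤ) ≤ |-(k : ℤ) + m| := by
      apply Int.one_le_abs
      omega
    exact_mod_cast h2
  have h0 : ∀ m ∈ (sM n).erase k, nrm (iv (-(k : ℚ) + m) ^ mM m) ≤
      (1 / (|-(k : ℚ) + m| - 1 / 2)) ^ 64 := by
    intro m hm
    refine (nrm_pow _ _).trans
      (pow_le_pow_left₀ (nrm_nonneg _) (nrm_iv ?_) 64)
    have h1 := habs m hm
    linarith
  refine (Finset.prod_le_prod (fun _ _ => nrm_nonneg _) h0).trans ?_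
  rw [Finset.prod_pow]
  have hpos : ∀ m ∈ (sM n).erase k, (0 : ℚ) ≤ 1 / (|-(k : ℚ) + m| - 1 / 2) := by
    intro m hm
    have h1 := habs m hm
    apply one_div_nonneg.2
    linarith
  apply pow_le_pow_left₀ (Finset.prod_nonneg hpos)
  have hset : (sM n).erase k = Finset.Ico 0 k ∪ Finset.Ico (k + 1) (4 * n + 1) := by
    ext x
    simp only [Finset.mem_erase, Finset.mem_Icc, Finset.mem_union, Finset.mem_Ico]
    omega
  have hdisj : Disjoint (Finset.Ico 0 k) (Finset.Ico (k + 1) (4 * n + 1)) := by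
    rw [Finset.disjoint_left]
    intro x
    simp only [Finset.mem_Ico]
    omega
  rw [hset, Finset.prod_union hdisj]
  have h1 : ∏ m ∈ Finset.Ico 0 k, (1 / (|-(k : ℚ) + m| - 1 / 2)) ≤
      2 * (4 * n + 1) / (k.factorial : ℚ) := by
    rw [Finset.prod_Ico_eq_prod_range, ← Finset.prod_range_reflect]
    refine le_trans (le_of_eq ?_) ((Pool.Agent.H574R2.D3.g3p_Q k).trans ?_)
    · rw [Nat.sub_zero]
      refine Finset.prod_congr rfl fun l hl => ?_
      rw [Finset.mem_range] at hl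
      have h3 : 0 + (k - 1 - l) = k - 1 - l := by omega
      rw [h3]
      have h4 : ((k - 1 - l : ℕ) : ℚ) = k - 1 - l := by
        rw [Nat.cast_sub (by omega), Nat.cast_sub (by omega)]
        push_cast
        ring
      rw [h4, abs_of_nonpos (by linarith [Nat.cast_nonneg (α := ℚ) l])]
      congr 1
      ring
    · apply div_le_div_of_nonneg_right _ (by positivity)
      have h5 : (k : ℚ) ≤ 4 * n := by exact_mod_cast hk2
      linarith
  have h2 : ∏ m ∈ Finset.Ico (k + 1) (4 * n + 1), (1 / (|-(k : ℚ) + m| - 1 / 2)) ≤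
      2 * (4 * n + 1) / ((4 * n - k).factorial : ℚ) := by
    rw [Finset.prod_Ico_eq_prod_range]
    have h3 : 4 * n + 1 - (k + 1) = 4 * n - k := by omega
    rw [h3]
    refine le_trans (le_of_eq ?_) ((Pool.Agent.H574R2.D3.g3p_Q (4 * n - k)).trans ?_)
    · refine Finset.prod_congr rfl fun l _ => ?_
      push_cast
      rw [abs_of_nonneg (by linarith [Nat.cast_nonneg (α := ℚ) l])]
      congr 1
      ring
    · apply div_le_div_of_nonneg_right _ (by positivity)
      have h5 : ((4 * n - k : ℕ) : ℚ) ≤ 4 * n := by exact_mod_cast (by omega : 4 * n - k ≤ 4 * n)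
      linarith
  have hpos2 : (0 : ℚ) ≤ ∏ m ∈ Finset.Ico (k + 1) (4 * n + 1), (1 / (|-(k : ℚ) + m| - 1 / 2)) := by
    apply Finset.prod_nonneg
    intro m hm
    apply hpos
    rw [hset]
    exact Finset.mem_union_right _ hm
  calc _ ≤ (2 * (4 * n + 1) / (k.factorial : ℚ)) * (2 * (4 * n + 1) / ((4 * n - k).factorial : ℚ)) :=
        mul_le_mul h1 h2 hpos2 (by positivity)
    _ = _ := by ring

/-- the poles -/
lemma G2_V {n k : ℕ} (hn : 40 ≤ n) (hk : k ∈ sM n) : G2r (VV ((sM n).erase k) mM (-(k : ℚ))) ≤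
    Real.exp (-(64 * (Psi (k : ℝ) + Psi (4 * n - (k : ℝ)))) + 128 * Real.log ((100000 * n : ℕ) : ℝ)) := by
  obtain ⟨hk1, hk2⟩ := Finset.mem_Icc.1 hk
  have hn' : (40 : ℝ) ≤ n := by exact_mod_cast hn
  refine G2r_of_le (G2_V0 hk) (by positivity) ?_
  push_cast
  have hx : (0 : ℝ) < 2 * (4 * (n : ℝ) + 1) := by positivity
  have hy : (0 : ℝ) < (k.factorial : ℝ) := by positivity
  have hz : (0 : ℝ) < ((4 * n - k).factorial : ℝ) := by positivity
  rw [Real.log_pow, Real.log_mul (pow_pos hx 2).ne' (by positivity), Real.log_pow, one_div, Real.log_inv,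
    Real.log_mul hy.ne' hz.ne']
  have h1 := Pool.Agent.LZ.G2_lf_low k
  have h2 := Pool.Agent.LZ.G2_lf_low (4 * n - k)
  rw [Nat.cast_sub (by omega)] at h2
  push_cast at h1 h2
  have h3 : Real.log (2 * (4 * (n : ℝ) + 1)) ≤ Real.log (100000 * n) := Real.log_le_log (by positivity) (by linarith)
  push_cast
  linarith

lemma G2_kap {n k : ℕ} (hk : k ∈ sM n) : |(((2 * n : ℕ) : ℚ) - k)| ≤ 2 * n := by
  obtain ⟨hk1, hk2⟩ := Finset.mem_Icc.1 hk
  have h7 : (k : ℚ) ≤ 4 * n := by exact_mod_cast hk2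
  have h8 : (0 : ℚ) ≤ k := Nat.cast_nonneg _
  push_cast
  rw [abs_le]
  constructor <;> linarith

lemma G2_linf {n k : ℕ} (hn : 40 ≤ n) (hk : k ∈ sM n) :
    G2r (TS (-(k : ℚ)) (2 * X + C ((4 * n : ℕ) : ℚ))) ≤ Real.exp (Real.log ((100000 * n : ℕ) : ℝ)) := by
  have e : (2 * X + C ((4 * n : ℕ) : ℚ) : ℚ[X]) = C 2 * (X + C ((2 * n : ℕ) : ℚ)) := by
    rw [mul_add, ← C_mul, show (C 2 : ℚ[X]) = 2 from rfl]
    congr 2
    push_cast
    ring
  have h10 : (40 : ℚ) ≤ n := by exact_mod_cast hn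
  refine G2r_of_le (q := ((100000 * n : ℕ) : ℚ)) ?_ (by push_cast; linarith) (by rw [Rat.cast_natCast])
  rw [e, map_mul, TS_C, nrm_C_mul]
  have h1 := nrm_TS_lin (-(k : ℚ)) ((2 * n : ℕ) : ℚ)
  have h2 := G2_kap hk
  have h3 : (-(k : ℚ) + ((2 * n : ℕ) : ℚ)) = ((2 * n : ℕ) : ℚ) - k := by ring
  rw [h3] at h1
  rw [abs_of_pos (by norm_num : (0 : ℚ) < 2)]
  push_cast at h1 h2 ⊢
  linarith

lemma G2_x128 {n k : ℕ} (hn : 40 ≤ n) (hk : k ∈ sM n) :
    G2r (TS (-(k : ℚ)) (xM n ^ 128)) ≤ Real.exp (256 * Real.log ((100000 * n : ℕ) : ℝ)) := by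
  have h10 : (40 : ℚ) ≤ n := by exact_mod_cast hn
  refine G2r_of_le (q := ((100000 * n : ℕ) : ℚ) ^ 256) ?_ (by push_cast; positivity) (by
    rw [Rat.cast_pow, Rat.cast_natCast, Real.log_pow]
    push_cast
    exact le_rfl)
  unfold xM
  rw [← pow_mul, map_pow, TS_lin]
  refine (nrm_pow _ _).trans ?_
  apply pow_le_pow_left₀ (nrm_nonneg _)
  have h1 := nrm_X_add_C (-(k : ℚ) + ((2 * n : ℕ) : ℚ))
  have h2 := G2_kap hk
  have h3 : (-(k : ℚ) + ((2 * n : ℕ) : ℚ)) = ((2 * n : ℕ) : ℚ) - k := by ring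
  rw [h3] at h1 ⊢
  push_cast at h1 h2 ⊢
  linarith

/-- the constant -/
lemma G2_const {n k : ℕ} (hn : 40 ≤ n) : G2r (TS (-(k : ℚ)) (C (cM n))) ≤
    Real.exp (64 * Psi (4 * n) + 64 + 64 * Real.log ((100000 * n : ℕ) : ℝ)) := by
  have hn' : (40 : ℝ) ≤ n := by exact_mod_cast hn
  have hc : 0 < cM n := by unfold cM; positivity
  refine G2r_of_le (q := cM n) (by rw [TS_C, nrm_C, abs_of_pos hc]) hc ?_
  unfold cM
  push_cast
  rw [Real.log_pow]
  have h1 := lf (m := 4 * n) (M := 100000 * (n : ℝ)) (by push_cast; linarith)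
  push_cast at h1 ⊢
  linarith

lemma G2_phi7 {n : ℕ} (hn : 1 ≤ n) (u : ℝ) :
    64 * Psi (4 * n) - 64 * Psi (2 * n + u) - 64 * Psi (2 * n - u) = n * phi (1000 * u / n) := by
  have hn0 : (0 : ℝ) < n := by exact_mod_cast hn
  have hc : (1000 / n : ℝ) ≠ 0 := by positivity
  unfold phi
  have e1 : 1000 * u / n + 2000 = (1000 / n) * (2 * n + u) := by field_simp; ring
  have e2 : 1000 * u / n - 2000 = -((1000 / n) * (2 * n - u)) := by field_simp; ring
  rw [e1, e2, Pool.Agent.LZ.G2_Psi_neg,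
    Pool.Agent.LZ.G2_Psi_scale hc, Pool.Agent.LZ.G2_Psi_scale hc]
  have f4 : Psi (4 * n) = 4 * Psi n + 4 * n * Real.log 4 := Pool.Agent.LZ.G2_Psi_scale (by norm_num) _
  have l4 : Real.log 4 = 2 * Real.log 2 := by
    rw [show (4 : ℝ) = 2 ^ 2 by norm_num, Real.log_pow]
    norm_num
  have lc : Real.log (1000 / n) = 3 * Real.log 2 + 3 * Real.log 5 - Real.log n := by
    rw [Real.log_div (by norm_num) hn0.ne', show (1000 : ℝ) = 2 ^ 3 * 5 ^ 3 by norm_num,
      Real.log_mul (by norm_num) (by norm_num), Real.log_pow, Real.log_pow]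
    norm_num
  have fn : Psi n = n * Real.log n - n := rfl
  rw [f4, l4, lc, fn]
  generalize Psi (2 * n + u) = P1
  generalize Psi (2 * n - u) = P2
  generalize Real.log 5 = L5
  generalize Real.log 2 = L2
  generalize Real.log (n : ℝ) = Ln
  field_simp
  ring

lemma G2_ln1 {n : ℕ} (hn : 40 ≤ n) : 1 ≤ Real.log n := by
  have h1 : (40 : ℝ) ≤ n := by exact_mod_cast hn
  have h2 := Real.exp_one_lt_d9
  rw [Real.le_log_iff_exp_le (by linarith)]
  linarith

lemma G2_ln1000 {n : ℕ} (hn : 40 ≤ n) : Real.log ((100000 * n : ℕ) : ℝ) ≤ 5 * Real.log n := by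
  have h1 : (40 : ℝ) ≤ n := by exact_mod_cast hn
  have : 5 * Real.log n = Real.log ((n : ℝ) ^ 5) := by rw [Real.log_pow]; norm_num
  rw [this]
  push_cast
  apply Real.log_le_log (by positivity)
  have h2 : (100000 : ℝ) ≤ (n : ℝ) ^ 4 := by
    calc (100000 : ℝ) ≤ 40 ^ 4 := by norm_num
      _ ≤ _ := pow_le_pow_left₀ (by norm_num) h1 4
  have h3 : (n : ℝ) ^ 5 = n ^ 4 * n := by ring
  rw [h3]
  nlinarith

/-- one pole -/
lemma G2_one {n k r : ℕ} (hn : 40 ≤ n) (hinj1 : Set.InjOn (nd n) (Finset.range (72 * n - 72)))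
    (hinj2 : Set.InjOn (nd n) (Finset.Ico (72 * n - 72) (96 * n - 96)))
    (hbd : ∀ i < 96 * n - 96, |nd n i| ≤ 33180 * n) (hk : k ∈ sM n) (hr : r ∈ Finset.Icc 1 64) (i j : ℕ) :
    |((pa (sM n) mM (PM n * EM n (lag (Finset.range (72 * n - 72)) (zq n) i *
      lag (Finset.Ico (72 * n - 72) (96 * n - 96)) (zq n) j)) k r : ℚ) : ℝ)| ≤
    Real.exp (n * phi (1000 * (((2 * n : ℤ) - k : ℤ) : ℝ) / n) +
      Lp n (Finset.range (72 * n - 72)) (1000 * ((2 * n : ℤ) - k)) +
      Lp n (Finset.Ico (72 * n - 72) (96 * n - 96)) (1000 * ((2 * n : ℤ) - k)) + 60000 * Real.log n) := by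
  set Q : ℚ[X] := lag (Finset.range (72 * n - 72)) (zq n) i *
      lag (Finset.Ico (72 * n - 72) (96 * n - 96)) (zq n) j with hQ
  have hr' := Finset.mem_Icc.1 hr
  have hd : pa (sM n) mM (PM n * EM n Q) k r = pfc (sM n) mM (PM n * EM n Q) k (64 - r) := by
    unfold pa
    rw [if_pos hr'.2]
  rw [hd]
  unfold pfc
  have h0 : |((PowerSeries.coeff (64 - r) (TS (-(k : ℚ)) (PM n * EM n Q) *
      VV ((sM n).erase k) mM (-(k : ℚ))) : ℚ) : ℝ)| ≤
      Real.exp (64 : ℝ) * G2r (TS (-(k : ℚ)) (PM n * EM n Q) * VV ((sM n).erase k) mM (-(k : ℚ))) := by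
    have h1 := coeff_le_nrm (TS (-(k : ℚ)) (PM n * EM n Q) *
      VV ((sM n).erase k) mM (-(k : ℚ))) (j := 64 - r) (by omega)
    have h2 : ((|PowerSeries.coeff (64 - r) (TS (-(k : ℚ)) (PM n * EM n Q) *
      VV ((sM n).erase k) mM (-(k : ℚ)))| : ℚ) : ℝ) ≤ ((2 ^ 64 * nrm (TS (-(k : ℚ)) (PM n * EM n Q) *
      VV ((sM n).erase k) mM (-(k : ℚ))) : ℚ) : ℝ) := Rat.cast_le.2 h1
    rw [Rat.cast_abs, Rat.cast_mul] at h2
    refine h2.trans ?_
    apply mul_le_mul_of_nonneg_right _ (G2r_nonneg _)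
    have h3 : (2 : ℝ) ≤ Real.exp 1 := by
      have := Real.add_one_le_exp (1 : ℝ)
      linarith
    have h4 : Real.exp (64 : ℝ) = Real.exp 1 ^ 64 := by
      rw [← Real.exp_nat_mul]
      norm_num
    rw [h4]
    push_cast
    exact pow_le_pow_left₀ (by norm_num) h3 64
  refine h0.trans ?_
  have p1 := G2_const (k := k) hn
  have p2 := G2_linf hn hk
  have p4 := G2_x128 hn hk
  have p5 := G2_nodes hn (Finset.range (72 * n - 72)) hinj1 (by
      intro x hx
      exact hbd x (by have := Finset.mem_range.1 hx; omega)) hk i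
  have p6 := G2_nodes hn (Finset.Ico (72 * n - 72) (96 * n - 96)) hinj2 (by
      intro x hx
      exact hbd x (Finset.mem_Ico.1 hx).2) hk j
  have p7 := G2_V hn hk
  have hall := G2r_mul_exp (G2r_mul_exp (G2r_mul_exp p1 p2)
    (G2r_mul_exp p4 (G2r_mul_exp p5 p6))) p7
  have he : TS (-(k : ℚ)) (PM n * EM n Q) = TS (-(k : ℚ)) (C (cM n)) * TS (-(k : ℚ)) (2 * X + C ((4 * n : ℕ) : ℚ)) *
      (TS (-(k : ℚ)) (xM n ^ 128) *
      (TS (-(k : ℚ)) ((lag (Finset.range (72 * n - 72)) (zq n) i).comp (xM n)) *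
        TS (-(k : ℚ)) ((lag (Finset.Ico (72 * n - 72) (96 * n - 96)) (zq n) j).comp (xM n)))) := by
    unfold PM EM
    rw [hQ, Polynomial.mul_comp, Polynomial.mul_comp, Polynomial.X_pow_comp]
    simp only [map_mul]
  rw [← he] at hall
  calc _ ≤ Real.exp (64 : ℝ) * Real.exp _ := mul_le_mul_of_nonneg_left hall (Real.exp_pos _).le
    _ ≤ _ := by
      rw [← Real.exp_add]
      apply Real.exp_le_exp.2
      have h7 := G2_phi7 (by omega : 1 ≤ n) ((2 * n : ℝ) - k)
      have e1 : 2 * (n : ℝ) + ((2 * n : ℝ) - k) = 4 * n - k := by ring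
      have e2 : 2 * (n : ℝ) - ((2 * n : ℝ) - k) = k := by ring
      rw [e1, e2] at h7
      have e7 : (((2 * n : ℤ) - k : ℤ) : ℝ) = (2 * n : ℝ) - k := by push_cast; ring
      rw [e7, ← h7]
      have h8 := G2_ln1 hn
      have h9 := G2_ln1000 hn
      linarith

end G2

open G2

/-- entries of the pole part -/
theorem t_G2_entryY_of (h0 : St_G0_zq_inj) (hX : St_G0_nd_X) (hY : St_G0_nd_Y) : St_G2_entryY := by
  intro β
  have hinj1 : ∀ {n : ℕ}, 40 ≤ n → Set.InjOn (nd n) (Finset.range (72 * n - 72)) := by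
    intro n hn i hi j hj hij
    apply (h0 hn).1 hi hj
    unfold zq
    rw [hij]
  have hinj2 : ∀ {n : ℕ}, 40 ≤ n → Set.InjOn (nd n) (Finset.Ico (72 * n - 72) (96 * n - 96)) := by
    intro n hn i hi j hj hij
    apply (h0 hn).2 hi hj
    unfold zq
    rw [hij]
  have hbd : ∀ {n : ℕ}, 40 ≤ n → ∀ i < 96 * n - 96, |nd n i| ≤ 33180 * n := by
    intro n hn i hi
    rw [abs_le]
    rcases Nat.lt_or_ge i (20 * n - 1) with h | h
    · have e : nd n i = 1000 * (2 * n + 1 + i) := by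
        unfold nd
        rw [if_pos h]
      rw [e]
      constructor <;> omega
    · rcases Nat.lt_or_ge i (24 * n - 24) with h2 | h2
      · have := hX hn h h2
        constructor <;> omega
      · have := hY hn h2 hi
        constructor <;> omega
  set S : ℝ := ∑ r ∈ Finset.Icc 1 64, |(β r : ℝ)| with hS
  have hS0 : 0 ≤ S := Finset.sum_nonneg fun _ _ => abs_nonneg _
  have hlS : 0 ≤ Real.log (1 + S) := Real.log_nonneg (by linarith)
  refine ⟨60005 + Real.log (1 + S), by linarith, ?_⟩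
  intro n hn MY hM i _ j _ _
  rw [BL_apply]
  set Q : ℚ[X] := lag (Finset.range (72 * n - 72)) (zq n) i *
      lag (Finset.Ico (72 * n - 72) (96 * n - 96)) (zq n) j with hQ
  have hln := G2_ln1 hn
  have hln8 := G2_ln1000 hn
  have hrho : ∀ r ∈ Finset.Icc 1 64, |((rho n (PM n * EM n Q) r : ℚ) : ℝ)| ≤
      Real.exp (MY + 60005 * Real.log n) := by
    intro r hr
    unfold rho
    rw [Rat.cast_sum]
    refine (Finset.abs_sum_le_sum_abs _ _).trans ?_
    have h2 : ∀ k ∈ sM n, |((pa (sM n) mM (PM n * EM n Q) k r : ℚ) : ℝ)| ≤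
        Real.exp (MY + 60000 * Real.log n) := by
      intro k hk
      refine (G2_one hn (hinj1 hn) (hinj2 hn) (hbd hn) hk hr i j).trans (Real.exp_le_exp.2 ?_)
      obtain ⟨hk1, hk2⟩ := Finset.mem_Icc.1 hk
      have h3 := hM ((2 * n : ℤ) - k) (by
        rw [abs_le]
        constructor <;> omega)
      linarith
    refine (Finset.sum_le_sum h2).trans ?_
    rw [Finset.sum_const, nsmul_eq_mul]
    have h3 : ((sM n).card : ℝ) ≤ Real.exp (5 * Real.log n) := by
      have h5 : (0 : ℝ) < ((100000 * n : ℕ) : ℝ) := by exact_mod_cast (by omega : 0 < 100000 * n)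
      have h6 : ((100000 * n : ℕ) : ℝ) ≤ Real.exp (5 * Real.log n) := by
        rw [← Real.exp_log h5]
        exact Real.exp_le_exp.2 hln8
      refine le_trans ?_ h6
      have h7 : (sM n).card ≤ 100000 * n := by
        rw [Nat.card_Icc]; omega
      exact_mod_cast h7
    calc ((sM n).card : ℝ) * Real.exp (MY + 60000 * Real.log n) ≤
          Real.exp (5 * Real.log n) * Real.exp (MY + 60000 * Real.log n) :=
          mul_le_mul_of_nonneg_right h3 (Real.exp_pos _).le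
      _ = _ := by rw [← Real.exp_add]; congr 1; ring
  unfold xb
  rw [Rat.cast_sum]
  calc |∑ r ∈ Finset.Icc 1 64, ((rho n (PM n * EM n Q) r * β r : ℚ) : ℝ)|
      ≤ ∑ r ∈ Finset.Icc 1 64, |((rho n (PM n * EM n Q) r * β r : ℚ) : ℝ)| := Finset.abs_sum_le_sum_abs _ _
    _ ≤ ∑ r ∈ Finset.Icc 1 64, Real.exp (MY + 60005 * Real.log n) * |(β r : ℝ)| := by
        apply Finset.sum_le_sum
        intro r hr
        rw [Rat.cast_mul, abs_mul]
        exact mul_le_mul_of_nonneg_right (hrho r hr) (abs_nonneg _)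
    _ = Real.exp (MY + 60005 * Real.log n) * S := by rw [← Finset.mul_sum]
    _ ≤ Real.exp (MY + 60005 * Real.log n) * (1 + S) :=
        mul_le_mul_of_nonneg_left (by linarith) (Real.exp_pos _).le
    _ = Real.exp (MY + 60005 * Real.log n) * Real.exp (Real.log (1 + S)) := by
        rw [Real.exp_log (by linarith)]
    _ ≤ _ := by
        rw [← Real.exp_add]
        apply Real.exp_le_exp.2
        have h5 : Real.log (1 + S) * 1 ≤ Real.log (1 + S) * Real.log n := mul_le_mul_of_nonneg_left hln hlS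
        linarith

end

end Pool.Agent.Run7.h232.T
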